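import Mathlib

set_option autoImplicit false

namespace Pool.Agent.T6.H18.Fork

open Finset

/-- Entropy-type lower bound for the total size of a family of subsets. -/
theorem family_size {V : Type*} [DecidableEq V] (X : Finset V) (F : Finset (Finset V))
    (hF : ∀ A ∈ F, A ⊆ X) (h1 : 1 ≤ F.card) (h2 : (2 : ℝ) ^ X.card ≤ (F.card : ℝ) ^ 3) :
    (F.card : ℝ) * Real.log F.card ≤ 5 * ∑ A ∈ F, (A.card : ℝ) := by
  set M : ℝ := (F.card : ℝ) with hM
  have hM1 : (1 : ℝ) ≤ M := by rw [hM]; exact_mod_cast h1
  have hMpos : 0 < M := by linarith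
  have hlogM : 0 ≤ Real.log M := Real.log_nonneg hM1
  have hl2 : (0.6931471803 : ℝ) < Real.log 2 := Real.log_two_gt_d9
  have hl2' : Real.log 2 < 0.6931471808 := Real.log_two_lt_d9
  -- `|X| log 2 ≤ 3 log M`
  have hX : (X.card : ℝ) * Real.log 2 ≤ 3 * Real.log M := by
    have h := Real.log_le_log (by positivity) h2
    rw [Real.log_pow, Real.log_pow] at h
    exact_mod_cast h
  have hl98 : Real.log (9 / 8) ≤ 1 / 8 := by
    have := Real.log_le_sub_one_of_pos (show (0:ℝ) < 9 / 8 by norm_num)
    linarith
  have hl98' : 0 ≤ Real.log (9 / 8) := Real.log_nonneg (by norm_num)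
  have hl8 : Real.log 8 = 3 * Real.log 2 := by
    rw [show (8 : ℝ) = 2 ^ 3 by norm_num, Real.log_pow]; norm_num
  set τ : ℝ := Real.log M - X.card * Real.log (9 / 8) with hτ
  -- sum over the family of `8^{-|A|}`
  have hsum : ∑ A ∈ F, (1 / 8 : ℝ) ^ A.card ≤ (9 / 8 : ℝ) ^ X.card := by
    have h1 : ∑ A ∈ F, (1 / 8 : ℝ) ^ A.card ≤ ∑ A ∈ X.powerset, (1 / 8 : ℝ) ^ A.card := by
      apply Finset.sum_le_sum_of_subset_of_nonneg
      · intro A hA
        exact Finset.mem_powerset.2 (hF A hA)
      · intro A _ _
        positivity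
    have h2 : ∑ A ∈ X.powerset, (1 / 8 : ℝ) ^ A.card = (9 / 8 : ℝ) ^ X.card := by
      have := Finset.sum_pow_mul_eq_add_pow (1 / 8 : ℝ) 1 X
      simp only [one_pow, mul_one] at this
      rw [this]
      norm_num
    linarith
  have hpt : ∀ A ∈ F, 1 + τ - A.card * Real.log 8 ≤ Real.exp τ * (1 / 8 : ℝ) ^ A.card := by
    intro A _
    have h := Real.add_one_le_exp (τ - A.card * Real.log 8)
    have e : Real.exp (τ - A.card * Real.log 8) = Real.exp τ * (1 / 8 : ℝ) ^ A.card := by
      rw [sub_eq_add_neg, Real.exp_add]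
      congr 1
      rw [show -((A.card : ℝ) * Real.log 8) = (A.card : ℝ) * Real.log (1 / 8) by
        rw [one_div, Real.log_inv]; ring, Real.exp_nat_mul, Real.exp_log (by norm_num)]
    linarith
  have hadd := Finset.sum_le_sum hpt
  rw [Finset.sum_sub_distrib, Finset.sum_const, ← Finset.sum_mul, ← Finset.mul_sum,
    nsmul_eq_mul] at hadd
  have hexp : Real.exp τ * (9 / 8 : ℝ) ^ X.card = M := by
    rw [hτ, Real.exp_sub, Real.exp_log hMpos, Real.exp_nat_mul, Real.exp_log (by norm_num)]
    field_simp
  have h3 : Real.exp τ * ∑ A ∈ F, (1 / 8 : ℝ) ^ A.card ≤ M := by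
    calc Real.exp τ * ∑ A ∈ F, (1 / 8 : ℝ) ^ A.card
        ≤ Real.exp τ * (9 / 8 : ℝ) ^ X.card :=
          mul_le_mul_of_nonneg_left hsum (Real.exp_pos _).le
      _ = M := hexp
  have h4 : M * τ ≤ (∑ A ∈ F, (A.card : ℝ)) * Real.log 8 := by
    have : M * (1 + τ) - (∑ A ∈ F, (A.card : ℝ)) * Real.log 8 ≤ M := hadd.trans h3
    nlinarith
  -- lower bound for τ
  have hX' : (X.card : ℝ) * Real.log (9 / 8) ≤ (3 / 8) / 0.6931471803 * Real.log M := by
    have hXn : (0 : ℝ) ≤ X.card := Nat.cast_nonneg _
    have h5 : (X.card : ℝ) * 0.6931471803 ≤ 3 * Real.log M :=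
      (mul_le_mul_of_nonneg_left hl2.le hXn).trans hX
    have h6 : (X.card : ℝ) * Real.log (9 / 8) ≤ X.card * (1 / 8) :=
      mul_le_mul_of_nonneg_left hl98 hXn
    have h7 : (X.card : ℝ) ≤ 3 / 0.6931471803 * Real.log M := by
      rw [div_mul_eq_mul_div, le_div_iff₀ (by norm_num)]
      exact h5
    calc (X.card : ℝ) * Real.log (9 / 8) ≤ X.card * (1 / 8) := h6
      _ ≤ 3 / 0.6931471803 * Real.log M * (1 / 8) := by
          apply mul_le_mul_of_nonneg_right h7; norm_num
      _ = (3 / 8) / 0.6931471803 * Real.log M := by ring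
  have hτ' : 0.45 * Real.log M ≤ τ := by
    rw [hτ]
    have : (3 / 8 : ℝ) / 0.6931471803 ≤ 0.55 := by norm_num
    nlinarith
  have hS : 0 ≤ ∑ A ∈ F, (A.card : ℝ) := Finset.sum_nonneg fun _ _ => Nat.cast_nonneg _
  have h8 : (∑ A ∈ F, (A.card : ℝ)) * Real.log 8 ≤ (∑ A ∈ F, (A.card : ℝ)) * 2.25 := by
    apply mul_le_mul_of_nonneg_left _ hS
    rw [hl8]
    linarith
  have h9 : M * (0.45 * Real.log M) ≤ M * τ := mul_le_mul_of_nonneg_left hτ' hMpos.le
  nlinarith

/-- The numerical inequality behind the conditional expectation. -/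
theorem num_ineq {D M S : ℝ} (hD : 1 ≤ D) (hM : 1 ≤ M) (hS : M * Real.log M ≤ 5 * S) :
    Real.log D * (1 + M) ≤ 20 * (D + S) := by
  have hlogD : 0 ≤ Real.log D := Real.log_nonneg hD
  have hlogM : 0 ≤ Real.log M := Real.log_nonneg hM
  have hs0 : 0 ≤ Real.sqrt D := Real.sqrt_nonneg _
  have hsq : Real.sqrt D * Real.sqrt D = D := Real.mul_self_sqrt (by linarith)
  have hs1 : 1 ≤ Real.sqrt D := by
    rw [show (1:ℝ) = Real.sqrt 1 by simp]
    exact Real.sqrt_le_sqrt hD
  have hlog2 : Real.log D = 2 * Real.log (Real.sqrt D) := by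
    rw [Real.log_sqrt (by linarith)]; ring
  have hlogs : Real.log (Real.sqrt D) ≤ Real.sqrt D := by
    have := Real.log_le_sub_one_of_pos (show (0:ℝ) < Real.sqrt D by linarith)
    linarith
  have hS0 : 0 ≤ S := by
    have : 0 ≤ M * Real.log M := by positivity
    linarith
  rcases le_total M (Real.sqrt D) with h | h
  · have h1 : Real.log D * (1 + M) ≤ 2 * Real.sqrt D * (1 + Real.sqrt D) := by
      apply mul_le_mul
      · rw [hlog2]; linarith
      · linarith
      · linarith
      · positivity
    nlinarith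
  · have h1 : Real.log (Real.sqrt D) ≤ Real.log M := Real.log_le_log (by linarith) h
    have h2 : M * Real.log (Real.sqrt D) ≤ M * Real.log M :=
      mul_le_mul_of_nonneg_left h1 (by linarith)
    have h3 : 0 ≤ Real.log (Real.sqrt D) := Real.log_nonneg hs1
    rw [hlog2]
    nlinarith

/-- Independent finite sets of vertices. -/
def IndSet {V : Type*} (H : SimpleGraph V) (W : Finset V) : Prop := ∀ x ∈ W, ∀ y ∈ W, ¬ H.Adj x y

section
variable {V : Type*} [Fintype V] [DecidableEq V] (H : SimpleGraph V)

open Classical in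
/-- The neighbourhood of `v`. -/
noncomputable def nb (v : V) : Finset V := univ.filter (fun u => H.Adj v u)

theorem mem_nb {v u : V} : u ∈ nb H v ↔ H.Adj v u := by
  simp [nb]

open Classical in
/-- All independent sets. -/
noncomputable def ind : Finset (Finset V) := univ.filter (fun W => IndSet H W)

theorem mem_ind {W : Finset V} : W ∈ ind H ↔ IndSet H W := by
  simp [ind]

/-- The weight. -/
noncomputable def wt (D : ℝ) (v : V) (W : Finset V) : ℝ :=
  D * (if v ∈ W then 1 else 0) + ((nb H v ∩ W).card : ℝ)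

theorem deg_le {a : ℕ} (hα : ∀ W : Finset V, IndSet H W → W.card ≤ a) {v : V}
    (f : V → Fin 3) (hf : ∀ x y, H.Adj v x → H.Adj v y → H.Adj x y → f x ≠ f y) :
    (nb H v).card ≤ 3 * a := by
  classical
  have h := Finset.card_eq_sum_card_fiberwise (f := f) (s := nb H v) (t := univ)
    (fun x _ => Finset.mem_coe.2 (Finset.mem_univ _))
  rw [h]
  calc ∑ b : Fin 3, ((nb H v).filter (fun x => f x = b)).card ≤ ∑ _b : Fin 3, a := by
        apply Finset.sum_le_sum
        intro b _
        apply hα
        intro x hx y hy hxy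
        rw [Finset.mem_filter, mem_nb] at hx hy
        exact hf x y hx.1 hy.1 hxy (hx.2.trans hy.2.symm)
    _ = 3 * a := by simp

theorem fiber_ineq {D : ℝ} (hD : 1 ≤ D) (v : V)
    (f : V → Fin 3) (hf : ∀ x y, H.Adj v x → H.Adj v y → H.Adj x y → f x ≠ f y)
    (W0 : Finset V) (hW0 : IndSet H W0) :
    Real.log D * (((ind H).filter (fun W => W \ insert v (nb H v) =
      W0 \ insert v (nb H v))).card : ℝ) ≤
      20 * ∑ W ∈ (ind H).filter (fun W => W \ insert v (nb H v) =
        W0 \ insert v (nb H v)), wt H D v W := by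
  classical
  set j := W0 \ insert v (nb H v) with hj
  have hjind : IndSet H j := fun x hx y hy => hW0 x (Finset.mem_sdiff.1 hx).1 y
    (Finset.mem_sdiff.1 hy).1
  have hvj : v ∉ j := by simp [hj]
  have hNj : ∀ u ∈ j, ¬ H.Adj v u := by
    intro u hu h
    have := (Finset.mem_sdiff.1 hu).2
    exact this (Finset.mem_insert_of_mem ((mem_nb H).2 h))
  set X := (nb H v).filter (fun u => ∀ w ∈ j, ¬ H.Adj u w) with hX
  set F := X.powerset.filter (fun A => IndSet H A) with hF
  have hXN : ∀ u ∈ X, H.Adj v u := fun u hu => (mem_nb H).1 (Finset.mem_filter.1 hu).1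
  have hvX : v ∉ X := fun h => H.irrefl (hXN v h)
  have hdisj : ∀ u ∈ X, u ∉ j := fun u hu hj' => hNj u hj' (hXN u hu)
  have hfib : (ind H).filter (fun W => W \ insert v (nb H v) = j) =
      insert (insert v j) (F.image (fun A => A ∪ j)) := by
    ext W
    rw [Finset.mem_filter, mem_ind, Finset.mem_insert, Finset.mem_image]
    constructor
    · rintro ⟨hW, hWj⟩
      by_cases hv : v ∈ W
      · left
        rw [← hWj]
        ext u
        rw [Finset.mem_insert, Finset.mem_sdiff, Finset.mem_insert, mem_nb]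
        constructor
        · intro hu
          by_cases huv : u = v
          · exact Or.inl huv
          · exact Or.inr ⟨hu, fun h => h.elim huv (fun h => hW v hv u hu h)⟩
        · rintro (h | h)
          · rw [h]; exact hv
          · exact h.1
      · right
        refine ⟨W ∩ nb H v, ?_, ?_⟩
        · rw [hF, Finset.mem_filter, Finset.mem_powerset]
          refine ⟨?_, ?_⟩
          · intro u hu
            rw [Finset.mem_inter] at hu
            rw [hX, Finset.mem_filter]
            refine ⟨hu.2, fun w hw => ?_⟩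
            rw [← hWj] at hw
            exact hW u hu.1 w (Finset.mem_sdiff.1 hw).1
          · intro x hx y hy
            exact hW x (Finset.mem_inter.1 hx).1 y (Finset.mem_inter.1 hy).1
        · rw [← hWj]
          ext u
          rw [Finset.mem_union, Finset.mem_inter, Finset.mem_sdiff, Finset.mem_insert]
          constructor
          · rintro (h | h)
            · exact h.1
            · exact h.1
          · intro hu
            by_cases h : u ∈ nb H v
            · exact Or.inl ⟨hu, h⟩
            · refine Or.inr ⟨hu, fun h' => ?_⟩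
              rcases h' with h' | h'
              · rw [h'] at hu; exact hv hu
              · exact h h'
    · rintro (h | ⟨A, hA, h⟩)
      · rw [h]
        refine ⟨?_, ?_⟩
        · intro x hx y hy hxy
          rw [Finset.mem_insert] at hx hy
          rcases hx with hx | hx <;> rcases hy with hy | hy
          · rw [hx, hy] at hxy; exact H.irrefl hxy
          · rw [hx] at hxy; exact hNj y hy hxy
          · rw [hy] at hxy; exact hNj x hx hxy.symm
          · exact hjind x hx y hy hxy
        · ext u
          rw [Finset.mem_sdiff, Finset.mem_insert, Finset.mem_insert, mem_nb]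
          constructor
          · rintro ⟨h1, h2⟩
            rcases h1 with h1 | h1
            · exact absurd (Or.inl h1) h2
            · exact h1
          · intro hu
            refine ⟨Or.inr hu, ?_⟩
            rintro (h | h)
            · rw [h] at hu; exact hvj hu
            · exact hNj u hu h
      · rw [← h]
        rw [hF, Finset.mem_filter, Finset.mem_powerset] at hA
        refine ⟨?_, ?_⟩
        · intro x hx y hy hxy
          rw [Finset.mem_union] at hx hy
          rcases hx with hx | hx <;> rcases hy with hy | hy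
          · exact hA.2 x hx y hy hxy
          · exact (Finset.mem_filter.1 (hA.1 hx)).2 y hy hxy
          · exact (Finset.mem_filter.1 (hA.1 hy)).2 x hx hxy.symm
          · exact hjind x hx y hy hxy
        · ext u
          rw [Finset.mem_sdiff, Finset.mem_insert, Finset.mem_union, mem_nb]
          constructor
          · rintro ⟨h1, h2⟩
            rcases h1 with h1 | h1
            · exact absurd (Or.inr (hXN u (hA.1 h1))) h2
            · exact h1
          · intro hu
            refine ⟨Or.inr hu, ?_⟩
            rintro (h | h)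
            · rw [h] at hu; exact hvj hu
            · exact hNj u hu h
  rw [hfib]
  have hnot : insert v j ∉ F.image (fun A => A ∪ j) := by
    rw [Finset.mem_image]
    rintro ⟨A, hA, h⟩
    have hv : v ∈ A ∪ j := by rw [h]; exact Finset.mem_insert_self _ _
    rw [Finset.mem_union] at hv
    rw [hF, Finset.mem_filter, Finset.mem_powerset] at hA
    rcases hv with hv | hv
    · exact hvX (hA.1 hv)
    · exact hvj hv
  have hinj : Set.InjOn (fun A => A ∪ j) (F : Set (Finset V)) := by
    intro A hA B hB hAB
    have hA' := Finset.mem_coe.1 hA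
    have hB' := Finset.mem_coe.1 hB
    rw [hF, Finset.mem_filter, Finset.mem_powerset] at hA' hB'
    ext u
    have := congrArg (fun S => u ∈ S) hAB
    simp only [Finset.mem_union, eq_iff_iff] at this
    constructor
    · intro hu
      rcases this.1 (Or.inl hu) with h | h
      · exact h
      · exact absurd h (hdisj u (hA'.1 hu))
    · intro hu
      rcases this.2 (Or.inl hu) with h | h
      · exact h
      · exact absurd h (hdisj u (hB'.1 hu))
  rw [Finset.card_insert_of_notMem hnot, Finset.card_image_of_injOn hinj,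
    Finset.sum_insert hnot, Finset.sum_image hinj]
  have hw1 : wt H D v (insert v j) = D := by
    have : nb H v ∩ insert v j = ∅ := by
      ext u
      rw [Finset.mem_inter, Finset.mem_insert, mem_nb]
      constructor
      · rintro ⟨h1, h2 | h2⟩
        · rw [h2] at h1; exact absurd h1 (H.irrefl)
        · exact absurd h1 (hNj u h2)
      · intro h; simp at h
    rw [wt, this]
    simp
  have hw2 : ∀ A ∈ F, wt H D v (A ∪ j) = (A.card : ℝ) := by
    intro A hA
    rw [hF, Finset.mem_filter, Finset.mem_powerset] at hA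
    have hv : v ∉ A ∪ j := by
      rw [Finset.mem_union]
      rintro (h | h)
      · exact hvX (hA.1 h)
      · exact hvj h
    have : nb H v ∩ (A ∪ j) = A := by
      ext u
      rw [Finset.mem_inter, Finset.mem_union, mem_nb]
      constructor
      · rintro ⟨h1, h2 | h2⟩
        · exact h2
        · exact absurd h1 (hNj u h2)
      · intro h; exact ⟨hXN u (hA.1 h), Or.inl h⟩
    rw [wt, this, if_neg hv]
    simp
  rw [hw1, Finset.sum_congr rfl hw2]
  have hM1 : 1 ≤ F.card := by
    apply Finset.card_pos.2
    refine ⟨∅, ?_⟩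
    rw [hF, Finset.mem_filter, Finset.mem_powerset]
    exact ⟨Finset.empty_subset _, fun x hx => by simp at hx⟩
  have hXM : (2 : ℝ) ^ X.card ≤ (F.card : ℝ) ^ 3 := by
    have h := Finset.card_eq_sum_card_fiberwise (f := f) (s := X) (t := univ)
      (fun x _ => Finset.mem_coe.2 (Finset.mem_univ _))
    rw [h, ← Finset.prod_pow_eq_pow_sum, Fin.prod_univ_three]
    have hb : ∀ b : Fin 3, (2 : ℝ) ^ (X.filter (fun x => f x = b)).card ≤ (F.card : ℝ) := by
      intro b
      have h1 : (X.filter (fun x => f x = b)).powerset ⊆ F := by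
        intro A hA
        rw [Finset.mem_powerset] at hA
        rw [hF, Finset.mem_filter, Finset.mem_powerset]
        refine ⟨hA.trans (Finset.filter_subset _ _), ?_⟩
        intro x hx y hy hxy
        have hx' := Finset.mem_filter.1 (hA hx)
        have hy' := Finset.mem_filter.1 (hA hy)
        exact hf x y (hXN x hx'.1) (hXN y hy'.1) hxy (hx'.2.trans hy'.2.symm)
      have h2 := Finset.card_le_card h1
      rw [Finset.card_powerset] at h2
      exact_mod_cast h2
    have h0 := hb 0
    have h1 := hb 1
    have h2 := hb 2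
    calc _ ≤ (F.card : ℝ) * F.card * F.card := by
          apply mul_le_mul (mul_le_mul h0 h1 (by positivity) (by positivity)) h2
            (by positivity) (by positivity)
      _ = (F.card : ℝ) ^ 3 := by ring
  have hfam := family_size X F (fun A hA => by
    rw [hF, Finset.mem_filter, Finset.mem_powerset] at hA; exact hA.1) hM1 hXM
  have := num_ineq hD (show (1 : ℝ) ≤ (F.card : ℝ) by exact_mod_cast hM1) hfam
  push_cast
  linarith

theorem vertex_ineq {D : ℝ} (hD : 1 ≤ D) (v : V)
    (f : V → Fin 3) (hf : ∀ x y, H.Adj v x → H.Adj v y → H.Adj x y → f x ≠ f y) :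
    Real.log D * ((ind H).card : ℝ) ≤ 20 * ∑ W ∈ ind H, wt H D v W := by
  classical
  set key : Finset V → Finset V := fun W => W \ insert v (nb H v) with hkey
  have hmaps : ∀ W ∈ ind H, key W ∈ (ind H).image key := fun W hW =>
    Finset.mem_image_of_mem _ hW
  have h1 := Finset.card_eq_sum_card_fiberwise (f := key) (s := ind H)
    (t := (ind H).image key) (fun W hW => Finset.mem_coe.2 (hmaps W (Finset.mem_coe.1 hW)))
  have h2 := Finset.sum_fiberwise_of_maps_to hmaps (fun W => wt H D v W)
  rw [← h2, h1]
  push_cast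
  rw [Finset.mul_sum, Finset.mul_sum]
  apply Finset.sum_le_sum
  intro j hj
  obtain ⟨W0, hW0, rfl⟩ := Finset.mem_image.1 hj
  exact fiber_ineq H hD v f hf W0 ((mem_ind H).1 hW0)

/-- Locally 3-colourable graphs with independence number `a` (Alon's theorem). -/
theorem alon {a : ℕ} (ha : 1 ≤ a) (hα : ∀ W : Finset V, IndSet H W → W.card ≤ a)
    (hcol : ∀ v, ∃ f : V → Fin 3, ∀ x y, H.Adj v x → H.Adj v y → H.Adj x y → f x ≠ f y) :
    (Fintype.card V : ℝ) * Real.log (3 * a) ≤ 120 * (a : ℝ) ^ 2 := by
  classical
  have ha' : (1 : ℝ) ≤ a := by exact_mod_cast ha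
  have hD : (1 : ℝ) ≤ 3 * a := by linarith
  have hI : 0 < ((ind H).card : ℝ) := by
    have : 0 < (ind H).card := Finset.card_pos.2 ⟨∅, (mem_ind H).2 (fun x hx => by simp at hx)⟩
    exact_mod_cast this
  have hsum : ∑ v : V, Real.log (3 * a) * ((ind H).card : ℝ) ≤
      ∑ v : V, 20 * ∑ W ∈ ind H, wt H (3 * a) v W := by
    apply Finset.sum_le_sum
    intro v _
    obtain ⟨f, hf⟩ := hcol v
    exact vertex_ineq H hD v f hf
  rw [Finset.sum_const, Finset.card_univ, nsmul_eq_mul, ← Finset.mul_sum, Finset.sum_comm] at hsum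
  have hW : ∀ W ∈ ind H, ∑ v : V, wt H (3 * a) v W ≤ 6 * (a : ℝ) ^ 2 := by
    intro W hW
    have hWa := hα W ((mem_ind H).1 hW)
    have hWa' : (W.card : ℝ) ≤ a := by exact_mod_cast hWa
    unfold wt
    rw [Finset.sum_add_distrib, ← Finset.mul_sum]
    have h1 : ∑ v : V, (if v ∈ W then (1:ℝ) else 0) = W.card := by
      rw [Finset.sum_ite_mem]
      simp
    have h2 : ∑ v : V, ((nb H v ∩ W).card : ℝ) = ∑ w ∈ W, ((nb H w).card : ℝ) := by
      have e1 : ∀ v : V, ((nb H v ∩ W).card : ℝ) = ∑ w ∈ W, if H.Adj v w then (1:ℝ) else 0 := by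
        intro v
        rw [Finset.card_eq_sum_ones, Nat.cast_sum, ← Finset.sum_filter]
        apply Finset.sum_congr
        · ext u
          rw [Finset.mem_inter, Finset.mem_filter, mem_nb]
          tauto
        · intro _ _; simp
      have e2 : ∀ w : V, ((nb H w).card : ℝ) = ∑ v : V, if H.Adj v w then (1:ℝ) else 0 := by
        intro w
        rw [Finset.card_eq_sum_ones, Nat.cast_sum, ← Finset.sum_filter]
        apply Finset.sum_congr
        · ext u
          rw [Finset.mem_filter, mem_nb]
          constructor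
          · intro h; exact ⟨Finset.mem_univ _, h.symm⟩
          · intro h; exact h.2.symm
        · intro _ _; simp
      rw [Finset.sum_congr rfl (fun v _ => e1 v), Finset.sum_comm]
      exact Finset.sum_congr rfl (fun w _ => (e2 w).symm)
    rw [h1, h2]
    have h3 : ∑ w ∈ W, ((nb H w).card : ℝ) ≤ W.card * (3 * a) := by
      calc ∑ w ∈ W, ((nb H w).card : ℝ) ≤ ∑ _w ∈ W, (3 * a : ℝ) := by
            apply Finset.sum_le_sum
            intro w _
            obtain ⟨f, hf⟩ := hcol w
            exact_mod_cast deg_le H hα f hf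
        _ = W.card * (3 * a) := by rw [Finset.sum_const, nsmul_eq_mul]
    nlinarith
  have h4 : 20 * ∑ W ∈ ind H, ∑ v : V, wt H (3 * a) v W ≤ 20 * ((ind H).card * (6 * (a : ℝ) ^ 2)) := by
    apply mul_le_mul_of_nonneg_left _ (by norm_num)
    calc ∑ W ∈ ind H, ∑ v : V, wt H (3 * a) v W ≤ ∑ _W ∈ ind H, 6 * (a : ℝ) ^ 2 :=
          Finset.sum_le_sum hW
      _ = _ := by rw [Finset.sum_const, nsmul_eq_mul]
  have h5 : (ind H).card * ((Fintype.card V : ℝ) * Real.log (3 * a)) ≤
      (ind H).card * (120 * (a : ℝ) ^ 2) := by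
    have := hsum.trans h4
    nlinarith
  exact le_of_mul_le_mul_left h5 hI

end

end Pool.Agent.T6.H18.Fork
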