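import Mathlib

set_option autoImplicit false

namespace Pool.Agent.T6.H18.Fork

variable {V : Type*} (H : SimpleGraph V)

/-- no `K₄` -/
def NoK4 : Prop := ∀ a b c d, H.Adj a b → H.Adj a c → H.Adj a d → H.Adj b c → H.Adj b d →
  H.Adj c d → False

/-- no induced kite: a diamond `v, p; d, q` with a pendant vertex `s` adjacent to `d` only -/
def NoKite : Prop := ∀ v p d q s, H.Adj v p → H.Adj v d → H.Adj v q → H.Adj p d → H.Adj p q →
  ¬ H.Adj d q → d ≠ q → H.Adj s d → ¬ H.Adj s v → ¬ H.Adj s p → ¬ H.Adj s q →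
  s ≠ v → s ≠ p → s ≠ q → False

/-- one step inside the neighbourhood of `v` -/
def Step (v x y : V) : Prop := H.Adj x y ∧ H.Adj v x ∧ H.Adj v y

/-- the component of `x` in the neighbourhood of `v` -/
def comp (v x : V) : Set V := {y | Relation.ReflTransGen (Step H v) x y}

/-- `S` has a proper colouring with three colours -/
def Col3 (S : Set V) : Prop := ∃ f : V → Fin 3, ∀ x ∈ S, ∀ y ∈ S, H.Adj x y → f x ≠ f y

/-- rich component -/
def Rich (v x : V) : Prop := H.Adj v x ∧ ¬ Col3 H (comp H v x)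

theorem self_mem (v x : V) : x ∈ comp H v x := Relation.ReflTransGen.refl

variable {H}

theorem step_symm {v x y : V} (h : Step H v x y) : Step H v y x := ⟨h.1.symm, h.2.2, h.2.1⟩

theorem rtg_symm {v x y : V} (h : Relation.ReflTransGen (Step H v) x y) :
    Relation.ReflTransGen (Step H v) y x := by
  induction h with
  | refl => exact Relation.ReflTransGen.refl
  | tail _ h2 ih => exact Relation.ReflTransGen.head (step_symm h2) ih

theorem comp_eq {v x y : V} (h : y ∈ comp H v x) : comp H v y = comp H v x := by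
  ext z
  exact ⟨fun hz => Relation.ReflTransGen.trans h hz,
    fun hz => Relation.ReflTransGen.trans (rtg_symm h) hz⟩

theorem adj_of_mem {v x y : V} (hx : H.Adj v x) (h : y ∈ comp H v x) : H.Adj v y := by
  rcases Relation.ReflTransGen.cases_tail h with h | ⟨z, _, h⟩
  · rw [h]; exact hx
  · exact h.2.2

theorem mem_of_adj {v x y z : V} (hy : y ∈ comp H v x) (hvy : H.Adj v y) (hvz : H.Adj v z)
    (hyz : H.Adj y z) : z ∈ comp H v x :=
  Relation.ReflTransGen.tail hy ⟨hyz, hvy, hvz⟩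

/-- a vertex outside `K` with a neighbour in `K` -/
def Bd (H : SimpleGraph V) (v x s : V) : Prop := s ∉ comp H v x ∧ ∃ u ∈ comp H v x, H.Adj s u

theorem Bd.not_adj {v x s : V} (hx : H.Adj v x) (h : Bd H v x s) : ¬ H.Adj v s := by
  intro hvs
  obtain ⟨h1, u, hu, hsu⟩ := h
  exact h1 (mem_of_adj hu (adj_of_mem hx hu) hvs hsu.symm)

theorem path_kite (h4 : NoK4 H) (hk : NoKite H) {v d p q s : V} (hvd : H.Adj v d)
    (hvp : H.Adj v p) (hvq : H.Adj v q) (hdp : H.Adj d p) (hpq : H.Adj p q) (hdq : d ≠ q)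
    (hsd : H.Adj s d) (hsp : ¬ H.Adj s p) (hsq : ¬ H.Adj s q) (hsv : ¬ H.Adj s v)
    (hsv' : s ≠ v) : False := by
  have hnd : ¬ H.Adj d q := fun h => h4 v d p q hvd hvp hvq hdp h hpq
  refine hk v p d q s hvp hvd hvq hdp.symm hpq hnd hdq hsd hsv hsp hsq hsv' ?_ ?_
  · rintro rfl; exact hsv hvp.symm
  · rintro rfl; exact hsv hvq.symm

/-- every vertex of `K` not adjacent to `s` has a neighbour in `K` that is adjacent to `s` -/
theorem near (h4 : NoK4 H) (hk : NoKite H) {v x s : V} (hx : H.Adj v x) (hs : Bd H v x s)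
    (hsv : s ≠ v) {y : V} (hy : y ∈ comp H v x) (hsy : ¬ H.Adj s y) :
    ∃ z ∈ comp H v x, H.Adj z y ∧ H.Adj s z := by
  have hsv2 : ¬ H.Adj s v := fun h => hs.not_adj hx h.symm
  obtain ⟨-, u, hu, hsu⟩ := id hs
  have hpath : Relation.ReflTransGen (Step H v) u y := by
    have : y ∈ comp H v u := by rw [comp_eq hu]; exact hy
    exact this
  have key : ∀ y, Relation.ReflTransGen (Step H v) u y →
      H.Adj s y ∨ ∃ z ∈ comp H v x, H.Adj z y ∧ H.Adj s z := by
    intro y hy
    induction hy with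
    | refl => exact Or.inl hsu
    | @tail b c hb hbc ih =>
      by_cases hsc : H.Adj s c
      · exact Or.inl hsc
      by_cases hsb : H.Adj s b
      · right
        have hb' : b ∈ comp H v x := by
          have : b ∈ comp H v u := hb
          rw [comp_eq hu] at this
          exact this
        exact ⟨b, hb', hbc.1, hsb⟩
      · rcases ih with h | ⟨z, hz, hzb, hsz⟩
        · exact absurd h hsb
        · exfalso
          have hvz := adj_of_mem hx hz
          have hzc : z ≠ c := by rintro rfl; exact hsc hsz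
          exact path_kite h4 hk hvz hbc.2.1 hbc.2.2 hzb hbc.1 hzc hsz hsb hsc hsv2 hsv
  rcases key y hpath with h | h
  · exact absurd h hsy
  · exact h

/-- the non-neighbours of `s` in `K` are independent -/
theorem non_nb_indep (h4 : NoK4 H) (hk : NoKite H) {v x s : V} (hx : H.Adj v x)
    (hs : Bd H v x s) {b c : V} (hb : b ∈ comp H v x) (hc : c ∈ comp H v x)
    (hsb : ¬ H.Adj s b) (hsc : ¬ H.Adj s c) : ¬ H.Adj b c := by
  intro hbc
  by_cases hsv : s = v
  · rw [hsv] at hsb; exact hsb (adj_of_mem hx hb)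
  have hsv2 : ¬ H.Adj s v := fun h => hs.not_adj hx h.symm
  obtain ⟨z, hz, hzb, hsz⟩ := near h4 hk hx hs hsv hb hsb
  have hzc : z ≠ c := by rintro rfl; exact hsc hsz
  exact path_kite h4 hk (adj_of_mem hx hz) (adj_of_mem hx hb) (adj_of_mem hx hc) hzb hbc hzc hsz
    hsb hsc hsv2 hsv

/-- the boundary of a rich component is independent -/
theorem bd_indep (h4 : NoK4 H) (hk : NoKite H) {v x s t : V} (hr : Rich H v x)
    (hs : Bd H v x s) (ht : Bd H v x t) : ¬ H.Adj s t := by
  classical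
  intro hst
  apply hr.2
  refine ⟨fun y => if ¬ H.Adj s y then 0 else if ¬ H.Adj t y then 1 else 2, ?_⟩
  intro y hy z hz hyz
  by_cases h1 : H.Adj s y <;> by_cases h2 : H.Adj s z <;> by_cases h3 : H.Adj t y <;>
    by_cases h5 : H.Adj t z <;> simp [h1, h2, h3, h5]
  · exact h4 s t y z hst h1 h2 h3 h5 hyz
  · exact non_nb_indep h4 hk hr.1 ht hy hz h3 h5 hyz
  · exact non_nb_indep h4 hk hr.1 hs hy hz h1 h2 hyz
  · exact non_nb_indep h4 hk hr.1 hs hy hz h1 h2 hyz
  · exact non_nb_indep h4 hk hr.1 hs hy hz h1 h2 hyz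
  · exact non_nb_indep h4 hk hr.1 hs hy hz h1 h2 hyz

/-- neighbourhoods of vertices of a rich component are bipartite -/
theorem bip (h4 : NoK4 H) (hk : NoKite H) {v x u : V} (hr : Rich H v x)
    (hu : u ∈ comp H v x) (S : Set V) (hS : ∀ y ∈ S, H.Adj u y) : Col3 H S := by
  classical
  refine ⟨fun y => if y ∈ comp H v x then 0 else 1, ?_⟩
  intro y hy z hz hyz
  have huy := hS y hy
  have huz := hS z hz
  by_cases h1 : y ∈ comp H v x <;> by_cases h2 : z ∈ comp H v x <;> simp only [h1, h2, if_true,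
    if_false, ne_eq, not_true_eq_false]
  · exact h4 v u y z (adj_of_mem hr.1 hu) (adj_of_mem hr.1 h1) (adj_of_mem hr.1 h2) huy huz hyz
  · decide
  · decide
  · exact bd_indep h4 hk hr ⟨h1, u, hu, huy.symm⟩ ⟨h2, u, hu, huz.symm⟩ hyz

theorem rich_sub (h4 : NoK4 H) (hk : NoKite H) {v x v' x' u : V} (hr : Rich H v x)
    (hr' : Rich H v' x') (hu : u ∈ comp H v x) (hu' : u ∈ comp H v' x') :
    comp H v' x' ⊆ comp H v x := by
  have hv'u : H.Adj v' u := adj_of_mem hr'.1 hu'
  have hv' : v' ∉ comp H v x := by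
    intro h
    exact hr'.2 (bip h4 hk hr h _ (fun y hy => adj_of_mem hr'.1 hy))
  intro w hw
  have hpath : Relation.ReflTransGen (Step H v') u w := by
    have : w ∈ comp H v' u := by rw [comp_eq hu']; exact hw
    exact this
  clear hw
  induction hpath with
  | refl => exact hu
  | @tail b c hb hbc ih =>
    by_contra hc
    exact bd_indep h4 hk hr ⟨hv', u, hu, hv'u⟩ ⟨hc, b, ih, hbc.1.symm⟩ hbc.2.2

theorem rich_eq (h4 : NoK4 H) (hk : NoKite H) {v x v' x' u : V} (hr : Rich H v x)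
    (hr' : Rich H v' x') (hu : u ∈ comp H v x) (hu' : u ∈ comp H v' x') :
    comp H v' x' = comp H v x :=
  Set.Subset.antisymm (rich_sub h4 hk hr hr' hu hu') (rich_sub h4 hk hr' hr hu' hu)

/-- rich components that are joined by an edge are equal -/
theorem rich_adj (h4 : NoK4 H) (hk : NoKite H) {v x v' x' a b : V} (hr : Rich H v x)
    (hr' : Rich H v' x') (ha : a ∈ comp H v x) (hb : b ∈ comp H v' x') (hab : H.Adj a b) :
    b ∈ comp H v x := by
  classical
  by_contra hcon
  have hbd : Bd H v x b := ⟨hcon, a, ha, hab.symm⟩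
  have hdisj : ∀ u ∈ comp H v x, u ∉ comp H v' x' := by
    intro u hu hu'
    rw [rich_eq h4 hk hr hr' hu hu'] at hb
    exact hcon hb
  -- an edge in `K ∩ N(b)`
  have hedge : ∃ y ∈ comp H v x, ∃ z ∈ comp H v x, H.Adj b y ∧ H.Adj b z ∧ H.Adj y z := by
    by_contra hno
    apply hr.2
    refine ⟨fun y => if H.Adj b y then 0 else 1, ?_⟩
    intro y hy z hz hyz
    by_cases h1 : H.Adj b y <;> by_cases h2 : H.Adj b z <;> simp only [h1, h2, if_true,
      if_false, ne_eq, not_true_eq_false]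
    · exact hno ⟨y, hy, z, hz, h1, h2, hyz⟩
    · decide
    · decide
    · exact non_nb_indep h4 hk hr.1 hbd hy hz h1 h2 hyz
  obtain ⟨y, hy, z, hz, hby, hbz, hyz⟩ := hedge
  exact bd_indep h4 hk hr' ⟨hdisj y hy, b, hb, hby.symm⟩ ⟨hdisj z hz, b, hb, hbz.symm⟩ hyz

/-- the union of the rich components -/
def A (H : SimpleGraph V) : Set V := {y | ∃ v x, Rich H v x ∧ y ∈ comp H v x}

theorem A_triangle_free (h4 : NoK4 H) (hk : NoKite H) {x y z : V} (hx : x ∈ A H) (hy : y ∈ A H)
    (hz : z ∈ A H) (hxy : H.Adj x y) (hxz : H.Adj x z) (hyz : H.Adj y z) : False := by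
  obtain ⟨v, w, hr, hxw⟩ := hx
  obtain ⟨v2, w2, hr2, hy2⟩ := hy
  obtain ⟨v3, w3, hr3, hz3⟩ := hz
  have h1 := rich_adj h4 hk hr hr2 hxw hy2 hxy
  have h2 := rich_adj h4 hk hr hr3 hxw hz3 hxz
  exact h4 v x y z (adj_of_mem hr.1 hxw) (adj_of_mem hr.1 h1) (adj_of_mem hr.1 h2) hxy hxz hyz

/-- outside of `A` all neighbourhoods are 3-colourable -/
theorem outside_col (v : V) : Col3 H {y | H.Adj v y ∧ y ∉ A H} := by
  classical
  let F : Set V → V → Fin 3 := fun S => if h : Col3 H S then h.choose else fun _ => 0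
  refine ⟨fun y => F (comp H v y) y, ?_⟩
  intro y hy z hz hyz
  have hcol : Col3 H (comp H v y) := by
    by_contra h
    exact hy.2 ⟨v, y, ⟨hy.1, h⟩, self_mem H v y⟩
  have hz' : z ∈ comp H v y := mem_of_adj (self_mem H v y) hy.1 hz.1 hyz
  have e : comp H v z = comp H v y := comp_eq hz'
  show F (comp H v y) y ≠ F (comp H v z) z
  rw [e]
  simp only [F, dif_pos hcol]
  exact hcol.choose_spec y (self_mem H v y) z hz' hyz

end Pool.Agent.T6.H18.Fork
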