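import Mathlib
import Pool.Agent.T6.H18.Fork.Alon
import Pool.Agent.T6.H18.Fork.Kite

set_option autoImplicit false

namespace Pool.Agent.T6.H18.Fork

/-- The fork: vertices `0, ..., 4`, edges `01, 02, 03, 34`. -/
def fork : SimpleGraph (Fin 5) := SimpleGraph.fromEdgeSet {s(0, 1), s(0, 2), s(0, 3), s(3, 4)}

/-- No induced fork and no four pairwise non-adjacent vertices. -/
def InClass {V : Type*} (G : SimpleGraph V) : Prop :=
  IsEmpty (fork ↪g G) ∧ IsEmpty ((⊥ : SimpleGraph (Fin 4)) ↪g G)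

section
variable {V : Type*} {G : SimpleGraph V}

theorem noK4_compl (h : InClass G) : NoK4 Gᶜ := by
  intro a b c d hab hac had hbc hbd hcd
  rw [SimpleGraph.compl_adj] at hab hac had hbc hbd hcd
  have hinj : Function.Injective ![a, b, c, d] := by
    intro i j hij
    fin_cases i <;> fin_cases j <;> simp at hij <;> simp_all
  refine h.2.false ⟨⟨![a, b, c, d], hinj⟩, ?_⟩
  intro i j
  fin_cases i <;> fin_cases j <;> simp_all [SimpleGraph.adj_comm]

theorem noKite_compl (h : InClass G) : NoKite Gᶜ := by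
  intro v p d q s hvp hvd hvq hpd hpq hdq hne hsd hsv hsp hsq nsv nsp nsq
  rw [SimpleGraph.compl_adj] at hvp hvd hvq hpd hpq hdq hsd hsv hsp hsq
  have hdq' : G.Adj d q := by by_contra hc; exact hdq ⟨hne, hc⟩
  have hsv' : G.Adj s v := by by_contra hc; exact hsv ⟨nsv, hc⟩
  have hsp' : G.Adj s p := by by_contra hc; exact hsp ⟨nsp, hc⟩
  have hsq' : G.Adj s q := by by_contra hc; exact hsq ⟨nsq, hc⟩
  have h1 := hvp.1
  have h2 := hvd.1
  have h3 := hvq.1
  have h4 := hpd.1
  have h5 := hpq.1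
  have h6 := hsd.1
  have hinj : Function.Injective ![s, v, p, q, d] := by
    intro i j hij
    fin_cases i <;> fin_cases j <;> simp at hij <;> simp_all
  refine h.1.false ⟨⟨![s, v, p, q, d], hinj⟩, ?_⟩
  intro i j
  fin_cases i <;> fin_cases j <;> simp_all [SimpleGraph.adj_comm, fork]

theorem not_adj_isClique {W : Finset V} (hW : IndSet Gᶜ W) : G.IsClique (W : Set V) := by
  intro x hx y hy hne
  have := hW x hx y hy
  rw [SimpleGraph.compl_adj] at this
  by_contra hc
  exact this ⟨hne, hc⟩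

theorem alon_on [Fintype V] [DecidableEq V] {H : SimpleGraph V} {a : ℕ} (ha : 1 ≤ a)
    (hα : ∀ W : Finset V, IndSet H W → W.card ≤ a) (S : Set V)
    (hcol : ∀ v ∈ S, Col3 H {y | H.Adj v y ∧ y ∈ S}) :
    (Nat.card S : ℝ) * Real.log (3 * a) ≤ 120 * (a : ℝ) ^ 2 := by
  classical
  have := alon (V := S) (H.induce S) ha (by
    intro W hW
    have := hα (W.map (Function.Embedding.subtype _)) (by
      intro x hx y hy
      rw [Finset.mem_map] at hx hy
      obtain ⟨x, hx, rfl⟩ := hx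
      obtain ⟨y, hy, rfl⟩ := hy
      exact hW x hx y hy)
    rwa [Finset.card_map] at this) (by
    intro v
    obtain ⟨f, hf⟩ := hcol v v.2
    exact ⟨fun x => f x, fun x y hx hy hxy => hf x ⟨hx, x.2⟩ y ⟨hy, y.2⟩ hxy⟩)
  rwa [Nat.card_eq_fintype_card]

theorem card_bound [Fintype V] (h : InClass G) {k : ℕ} (hk : 1 ≤ k) (hG : G.cliqueNum ≤ k) :
    (Fintype.card V : ℝ) * Real.log (3 * k) ≤ 240 * (k : ℝ) ^ 2 := by
  classical
  have h4 := noK4_compl h
  have hK := noKite_compl h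
  have hα : ∀ W : Finset V, IndSet Gᶜ W → W.card ≤ k := by
    intro W hW
    exact (SimpleGraph.IsClique.card_le_cliqueNum (tc := not_adj_isClique hW)).trans hG
  have h1 := alon_on hk hα (A Gᶜ) (by
    intro v hv
    refine ⟨fun _ => 0, fun x hx y hy hxy => ?_⟩
    exact absurd (A_triangle_free h4 hK hv hx.2 hy.2 hx.1 hy.1 hxy) not_false)
  have h2 := alon_on hk hα (A Gᶜ)ᶜ (fun v _ => outside_col v)
  have h3 : Nat.card (A Gᶜ) + Nat.card ((A Gᶜ)ᶜ : Set V) = Fintype.card V := by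
    rw [← Nat.card_eq_fintype_card]
    exact Set.ncard_add_ncard_compl _
  have h5 : (Fintype.card V : ℝ) = (Nat.card (A Gᶜ) : ℝ) + Nat.card ((A Gᶜ)ᶜ : Set V) := by
    rw [← h3]; push_cast; ring
  rw [h5, add_mul]
  linarith

end

end Pool.Agent.T6.H18.Fork
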