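import Mathlib
import Pool.Agent.T6.H18.Fork.Bound

set_option autoImplicit false

namespace Pool.Agent.T6.H18.Fork

section
variable {V : Type} {G : SimpleGraph V}

/-- graphs without three pairwise non-adjacent vertices are in the class -/
theorem inClass_of_compl_cliqueFree (T : SimpleGraph V) (hT : T.CliqueFree 3) : InClass Tᶜ := by
  have h3 : ∀ a b c, a ≠ b → a ≠ c → b ≠ c → ¬ Tᶜ.Adj a b → ¬ Tᶜ.Adj a c → ¬ Tᶜ.Adj b c → False := by
    classical
    intro a b c hab hac hbc h1 h2 h3
    rw [SimpleGraph.compl_adj] at h1 h2 h3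
    have h1' : T.Adj a b := by by_contra hc; exact h1 ⟨hab, hc⟩
    have h2' : T.Adj a c := by by_contra hc; exact h2 ⟨hac, hc⟩
    have h3' : T.Adj b c := by by_contra hc; exact h3 ⟨hbc, hc⟩
    exact hT {a, b, c} (SimpleGraph.is3Clique_triple_iff.2 ⟨h1', h2', h3'⟩)
  constructor
  · refine ⟨fun f => ?_⟩
    have e : ∀ i j : Fin 5, ¬ fork.Adj i j → ¬ Tᶜ.Adj (f i) (f j) := fun i j h => by
      rwa [f.map_adj_iff]
    refine h3 (f 1) (f 2) (f 3) ?_ ?_ ?_ (e 1 2 ?_) (e 1 3 ?_) (e 2 3 ?_)
    · exact fun h => absurd (f.injective h) (by decide)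
    · exact fun h => absurd (f.injective h) (by decide)
    · exact fun h => absurd (f.injective h) (by decide)
    all_goals simp [fork]
  · refine ⟨fun f => ?_⟩
    have e : ∀ i j : Fin 4, ¬ Tᶜ.Adj (f i) (f j) := fun i j => by
      rw [f.map_adj_iff]; simp
    refine h3 (f 1) (f 2) (f 3) ?_ ?_ ?_ (e 1 2) (e 1 3) (e 2 3)
    · exact fun h => absurd (f.injective h) (by decide)
    · exact fun h => absurd (f.injective h) (by decide)
    · exact fun h => absurd (f.injective h) (by decide)

/-- colour classes of the complement of a triangle-free graph have at most two elements -/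
theorem card_le_of_colorable [Fintype V] (T : SimpleGraph V) (hT : T.CliqueFree 3) {c : ℕ}
    (h : Tᶜ.Colorable c) : Fintype.card V ≤ 2 * c := by
  classical
  obtain ⟨C⟩ := h
  have := Finset.card_le_mul_card_image_of_maps_to (s := Finset.univ) (t := Finset.univ)
    (f := fun v => C v) (fun v _ => Finset.mem_univ _) 2 (by
    intro i _
    by_contra hc
    push Not at hc
    obtain ⟨a, b, d, ha, hb, hd, hab, had, hbd⟩ := Finset.two_lt_card_iff.1 hc
    rw [Finset.mem_filter] at ha hb hd
    have key : ∀ x y, C x = i → C y = i → x ≠ y → T.Adj x y := by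
      intro x y hx hy hxy
      by_contra hn
      exact C.valid (v := x) (w := y) (by rw [SimpleGraph.compl_adj]; exact ⟨hxy, hn⟩)
        (hx.trans hy.symm)
    exact hT {a, b, d} (SimpleGraph.is3Clique_triple_iff.2 ⟨key a b ha.2 hb.2 hab,
      key a d ha.2 hd.2 had, key b d hb.2 hd.2 hbd⟩))
  simpa using this

theorem indepNum_sum {n j : ℕ} (T : SimpleGraph (Fin n)) :
    (T ⊕g (⊥ : SimpleGraph (Fin j))).indepNum = T.indepNum + j := by
  classical
  apply le_antisymm
  · obtain ⟨s, hs⟩ := (T ⊕g (⊥ : SimpleGraph (Fin j))).exists_isNIndepSet_indepNum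
    rw [← hs.card_eq, ← Finset.card_toLeft_add_card_toRight]
    apply Nat.add_le_add
    · apply SimpleGraph.IsIndepSet.card_le_indepNum
      intro x hx y hy hxy hadj
      exact hs.isIndepSet (Finset.mem_toLeft.1 hx) (Finset.mem_toLeft.1 hy)
        (fun h => hxy (Sum.inl_injective h)) (by simpa using hadj)
    · calc s.toRight.card ≤ (Finset.univ : Finset (Fin j)).card :=
            Finset.card_le_card (Finset.subset_univ _)
        _ = j := by simp
  · obtain ⟨s, hs⟩ := T.exists_isNIndepSet_indepNum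
    have : (s.disjSum (Finset.univ : Finset (Fin j))).card = T.indepNum + j := by
      rw [Finset.card_disjSum, hs.card_eq]; simp
    rw [← this]
    apply SimpleGraph.IsIndepSet.card_le_indepNum
    intro x hx y hy hxy hadj
    rcases x with x | x <;> rcases y with y | y
    · have hx' : x ∈ s := by simpa using hx
      have hy' : y ∈ s := by simpa using hy
      exact hs.isIndepSet hx' hy' (fun h => hxy (by rw [h])) (by simpa using hadj)
    · simp at hadj
    · simp at hadj
    · simp at hadj

theorem cliqueFree_sum {n j : ℕ} (T : SimpleGraph (Fin n)) (hT : T.CliqueFree 3) :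
    (T ⊕g (⊥ : SimpleGraph (Fin j))).CliqueFree 3 := by
  classical
  intro s hs
  rw [SimpleGraph.is3Clique_iff] at hs
  obtain ⟨a, b, c, hab, hac, hbc, rfl⟩ := hs
  rcases a with a | a <;> rcases b with b | b <;> rcases c with c | c <;>
    simp at hab hac hbc
  exact hT {a, b, c} (SimpleGraph.is3Clique_triple_iff.2 ⟨hab, hac, hbc⟩)

/-- the chromatic numbers of the graphs of the class with clique number `k` -/
def Values (k : ℕ) : Set ℕ := {c | ∃ (V : Type) (_ : Finite V) (G : SimpleGraph V),
  InClass G ∧ G.cliqueNum = k ∧ G.chromaticNumber = c}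

theorem main : ∀ k : ℕ, 2 ≤ k → ∃ m : ℕ, IsGreatest (Values k) m ∧
    (∀ (n : ℕ) (T : SimpleGraph (Fin n)), T.CliqueFree 3 → T.indepNum ≤ k → n ≤ 2 * m) ∧
    (m : ℝ) ≤ 240 * ((k : ℝ) ^ 2 / Real.log k) := by
  intro k hk
  have hk' : (2 : ℝ) ≤ k := by exact_mod_cast hk
  have hlog : 0 < Real.log k := Real.log_pos (by linarith)
  have hup : ∀ c ∈ Values k, (c : ℝ) ≤ 240 * ((k : ℝ) ^ 2 / Real.log k) := by
    rintro c ⟨V, hV, G, hG, hk1, hc⟩
    have := Fintype.ofFinite V
    have h1 := card_bound hG (k := k) (by omega) (by omega)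
    have h2 : c ≤ Fintype.card V := by
      have : (c : ℕ∞) ≤ Fintype.card V := hc ▸ SimpleGraph.chromaticNumber_le_card
      exact_mod_cast this
    have h3 : (c : ℝ) ≤ Fintype.card V := by exact_mod_cast h2
    have h4 : Real.log k ≤ Real.log (3 * k) := Real.log_le_log (by linarith) (by linarith)
    rw [← mul_div_assoc, le_div_iff₀ hlog]
    have h5 : (0 : ℝ) ≤ Fintype.card V := Nat.cast_nonneg _
    nlinarith
  have hbdd : BddAbove (Values k) := by
    refine ⟨⌊240 * ((k : ℝ) ^ 2 / Real.log k)⌋₊, fun c hc => ?_⟩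
    exact Nat.le_floor (hup c hc)
  have hval : ∀ (V : Type) (_ : Finite V) (G : SimpleGraph V), InClass G → G.cliqueNum = k →
      ∃ c ∈ Values k, G.chromaticNumber = c := by
    intro V hV G hG hk1
    have := Fintype.ofFinite V
    have hne : G.chromaticNumber ≠ ⊤ := by
      intro h
      have := G.chromaticNumber_le_card
      rw [h] at this
      simp at this
    obtain ⟨c, hc⟩ := ENat.ne_top_iff_exists.1 hne
    exact ⟨c, ⟨V, hV, G, hG, hk1, hc.symm⟩, hc.symm⟩
  have hlow : ∀ (n : ℕ) (T : SimpleGraph (Fin n)), T.CliqueFree 3 → T.indepNum ≤ k →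
      ∃ c ∈ Values k, n ≤ 2 * c := by
    intro n T hT hTk
    set j := k - T.indepNum with hj
    have h1 := cliqueFree_sum (j := j) T hT
    have h2 : (T ⊕g (⊥ : SimpleGraph (Fin j)))ᶜ.cliqueNum = k := by
      rw [SimpleGraph.cliqueNum_compl, indepNum_sum]; omega
    obtain ⟨c, hc, hc'⟩ := hval _ inferInstance _ (inClass_of_compl_cliqueFree _ h1) h2
    refine ⟨c, hc, ?_⟩
    have h3 := card_le_of_colorable _ h1 (SimpleGraph.chromaticNumber_le_iff_colorable.1 hc'.le)
    simp at h3
    omega
  have hne : (Values k).Nonempty := by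
    obtain ⟨c, hc, _⟩ := hlow 0 ⊥ (by
      intro s hs
      have h0 : s.card ≤ Fintype.card (Fin 0) := Finset.card_le_univ s
      rw [hs.card_eq] at h0
      simp at h0) (by
      obtain ⟨s, hs⟩ := (⊥ : SimpleGraph (Fin 0)).exists_isNIndepSet_indepNum
      have h0 : s.card ≤ Fintype.card (Fin 0) := Finset.card_le_univ s
      rw [hs.card_eq] at h0
      exact h0.trans (by simp))
    exact ⟨c, hc⟩
  obtain ⟨m, hm⟩ := hbdd.exists_isGreatest_of_nonempty hne
  refine ⟨m, hm, ?_, hup m hm.1⟩
  intro n T hT hTk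
  obtain ⟨c, hc, hcn⟩ := hlow n T hT hTk
  have := hm.2 hc
  omega

end

end Pool.Agent.T6.H18.Fork
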